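import Mathlib

/-!
# The isomorphism problem for hierarchically hyperbolic groups: data and known facts
-/

namespace Pool.Agent.N522.HI

/-- Finite presentations, coded by natural numbers, and properties of the presented groups. -/
structure Theory where
  /-- the groups presented by `a` and `b` are isomorphic -/
  Iso : ℕ → ℕ → Prop
  /-- `a` presents a hierarchically hyperbolic group -/
  Hhg : ℕ → Prop
  /-- the group presented by `a` has infinitely many ends -/
  Inf : ℕ → Prop
  /-- the groups presented by `a` and `b` do not have the same finite quotients -/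
  Diff : ℕ → ℕ → Prop
  /-- a presentation of the free product with the free group of rank two -/
  star : ℕ → ℕ

variable {T : Theory}

/-- Q1: a partial recursive function that halts with the right answer on all pairs of presentations
of hierarchically hyperbolic groups -/
def Q1 (T : Theory) : Prop := ∃ f : ℕ × ℕ →. Bool, Partrec f ∧
  ∀ a b, T.Hhg a → T.Hhg b → ∃ v, v ∈ f (a, b) ∧ (v = true ↔ T.Iso a b)

/-- There is a semi-algorithm that detects all pairs of non-isomorphic hierarchically hyperbolic
groups with infinitely many ends and the same finite quotients, and no pair of isomorphic ones. -/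
def Detect (T : Theory) : Prop := ∃ S : ℕ × ℕ → Prop, REPred S ∧
  (∀ a b, T.Hhg a → T.Hhg b → T.Inf a → T.Inf b → T.Iso a b → ¬ S (a, b)) ∧
  ∀ a b, T.Hhg a → T.Hhg b → T.Inf a → T.Inf b → ¬ T.Diff a b → ¬ T.Iso a b → S (a, b)

/-- Known facts. -/
structure Facts (T : Theory) : Prop where
  /-- Tietze: isomorphism of finitely presented groups is semi-decidable -/
  iso_re : REPred fun x : ℕ × ℕ => T.Iso x.1 x.2
  /-- the finite quotients of a finitely presented group can be listed effectively -/
  diff_re : REPred fun x : ℕ × ℕ => T.Diff x.1 x.2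
  /-- isomorphic groups have the same finite quotients -/
  diff_iso : ∀ a b, T.Diff a b → ¬ T.Iso a b
  /-- the free product is computed by adding two generators -/
  star_comp : Computable T.star
  /-- free products of hierarchically hyperbolic groups are hierarchically hyperbolic -/
  star_hhg : ∀ a, T.Hhg a → T.Hhg (T.star a)
  /-- free products with the free group of rank two have infinitely many ends -/
  star_inf : ∀ a, T.Inf (T.star a)
  /-- Grushko, Kurosh: the factor is determined by the free product -/
  star_iso : ∀ a b, T.Iso (T.star a) (T.star b) ↔ T.Iso a b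
  /-- groups with the same finite quotients have isomorphic profinite completions, and so have their
  free products with a free group -/
  star_diff : ∀ a b, T.Diff (T.star a) (T.star b) → T.Diff a b

theorem detect_of_q1 (h : Q1 T) : Detect T := by
  obtain ⟨f, hf, h⟩ := h
  refine ⟨fun x => false ∈ f x, ?_, fun a b ha hb _ _ hi hs => ?_,
    fun a b ha hb _ _ _ hn => ?_⟩
  · have h1 : Partrec fun x : ℕ × ℕ =>
        (f x).bind fun v => (cond v Part.none (Part.some ()) : Part Unit) := by
      refine hf.bind ?_
      refine Partrec.cond Computable.snd Partrec.none ?_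
      exact (Computable.const ()).partrec
    refine h1.dom_re.of_eq fun x => ?_
    constructor
    · intro hd
      obtain ⟨u, hu⟩ := Part.dom_iff_mem.1 hd
      obtain ⟨v, hv, hv'⟩ := Part.mem_bind_iff.1 hu
      cases v with
      | true => simp at hv'
      | false => exact hv
    · intro hm
      exact Part.dom_iff_mem.2 ⟨(), Part.mem_bind_iff.2 ⟨false, hm, by simp⟩⟩
  · obtain ⟨v, hv, hv'⟩ := h a b ha hb
    have e : v = false := Part.mem_unique hv hs
    rw [e] at hv'
    simpa using hv'.2 hi
  · obtain ⟨v, hv, hv'⟩ := h a b ha hb
    cases v with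
    | true => exact absurd (hv'.1 rfl) hn
    | false => exact hv

theorem q1_of_detect (F : Facts T) (h : Detect T) : Q1 T := by
  obtain ⟨S, hS, h1, h2⟩ := h
  have hS' : REPred fun x : ℕ × ℕ => S (T.star x.1, T.star x.2) := by
    have hc : Computable fun x : ℕ × ℕ => (T.star x.1, T.star x.2) :=
      (F.star_comp.comp Computable.fst).pair (F.star_comp.comp Computable.snd)
    exact Partrec.comp hS hc
  have p1 : Partrec fun x : ℕ × ℕ =>
      (Part.assert (T.Iso x.1 x.2) fun _ => Part.some ()).map fun _ => true :=
    F.iso_re.map (Computable.const true).to₂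
  have p2 : Partrec fun x : ℕ × ℕ =>
      (Part.assert (T.Diff x.1 x.2) fun _ => Part.some ()).map fun _ => false :=
    F.diff_re.map (Computable.const false).to₂
  have p3 : Partrec fun x : ℕ × ℕ =>
      (Part.assert (S (T.star x.1, T.star x.2)) fun _ => Part.some ()).map fun _ => false :=
    hS'.map (Computable.const false).to₂
  obtain ⟨k, hk, hk'⟩ := Partrec.merge' p2 p3
  obtain ⟨f, hf, hf'⟩ := Partrec.merge' p1 hk
  refine ⟨f, hf, fun a b ha hb => ?_⟩
  have hdom : (f (a, b)).Dom := by
    rw [(hf' (a, b)).2, (hk' (a, b)).2]
    by_cases hi : T.Iso a b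
    · left
      simpa [Part.map, Part.assert] using hi
    · right
      by_cases hd : T.Diff a b
      · left
        simpa [Part.map, Part.assert] using hd
      · right
        have := h2 (T.star a) (T.star b) (F.star_hhg a ha) (F.star_hhg b hb) (F.star_inf a)
          (F.star_inf b) (fun hd' => hd (F.star_diff a b hd')) (fun hi' => hi ((F.star_iso a b).1 hi'))
        simpa [Part.map, Part.assert] using this
  obtain ⟨v, hv⟩ := Part.dom_iff_mem.1 hdom
  refine ⟨v, hv, ?_⟩
  rcases (hf' (a, b)).1 v hv with h3 | h3
  · obtain ⟨_, hm, e⟩ := (Part.mem_map_iff _).1 h3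
    obtain ⟨hi, _⟩ := Part.mem_assert_iff.1 hm
    simp only at e hi
    simp [← e, hi]
  · rcases (hk' (a, b)).1 v h3 with h4 | h4
    · obtain ⟨_, hm, e⟩ := (Part.mem_map_iff _).1 h4
      obtain ⟨hi, _⟩ := Part.mem_assert_iff.1 hm
      simp only at e hi
      simp [← e, F.diff_iso a b hi]
    · obtain ⟨_, hm, e⟩ := (Part.mem_map_iff _).1 h4
      obtain ⟨hi, _⟩ := Part.mem_assert_iff.1 hm
      simp only at e hi
      have hn : ¬ T.Iso a b := fun hab => h1 (T.star a) (T.star b) (F.star_hhg a ha)
        (F.star_hhg b hb) (F.star_inf a) (F.star_inf b) ((F.star_iso a b).2 hab) hi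
      simp [← e, hn]

end Pool.Agent.N522.HI
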